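import Pool.Agent.R805.Tie.Main

/-!
# MP_c2102d: every tie knot is a 2-bridge knot

Diagrams, isotopies (`Iso`: planar isotopies and Reidemeister moves), tie sequences (`IsTie`),
their standard diagrams (`tieDiagram`) and the bridge number are defined in
`Pool/Agent/R805/Tie/Defs.lean`.
-/

namespace Pool.Agent.Results.MP_c2102d_gt.TieKnotsTwoBridge

open Pool.Agent.R805.Tie

/-- Let `s` be a tie sequence with `n` moves (and the final tuck `T`).  Its standard diagram is a
closed diagram with `n + 3` crossings; it is isotopic to a 4-plat (two cups, a braid on four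
strands, two caps); so the tie knot has bridge number at most `2`. -/
theorem result (s : List (Region × Dir)) (hs : IsTie s) :
    run 0 (tieDiagram s) = some 0 ∧
    crossings (tieDiagram s) = s.length + 3 ∧
    (∃ b : Wd, (∀ x ∈ b, (x.1 = Kd.pos ∨ x.1 = Kd.neg) ∧ x.2 ≤ 2) ∧
      Iso 0 (tieDiagram s)
        ([(Kd.cup, 0), (Kd.cup, 2)] ++ b ++ [(Kd.cap, 0), (Kd.cap, 0)])) ∧
    bridgeNumber (tieDiagram s) ≤ 2 :=
  ⟨run_tie hs, crossings_tie hs, tie_plat hs, tie_bridge hs⟩

end Pool.Agent.Results.MP_c2102d_gt.TieKnotsTwoBridge
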